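import Pool.Agent.H16.Surv

namespace Pool.Agent.Results.MP_5fb5c8_co.Hyp

variable {V : Type}

/-- the Voronoi cell `C(v, T)`. -/
def cell (G : SimpleGraph V) (T : Finset V) (v : V) : Set V :=
  {u | ∀ v' ∈ T, G.dist u v ≤ G.dist u v'}

/-- `I(T)`, the number of sites with an infinite cell. -/
noncomputable def infCount (G : SimpleGraph V) (T : Finset V) : ℕ :=
  {v | v ∈ T ∧ (cell G T v).Infinite}.ncard

/-- the survival number `s(G)`. -/
noncomputable def survival (G : SimpleGraph V) : ℕ∞ :=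
  sSup {m : ℕ∞ | ∃ n : ℕ, m = n ∧ 1 ≤ n ∧ ∃ D : ℕ, ∀ T : Finset V, n ≤ T.card →
    (∀ a ∈ T, ∀ b ∈ T, a ≠ b → D < G.dist a b) → n ≤ infCount G T}

/-- geodesic triangles are uniformly thin. -/
def Hyperbolic (G : SimpleGraph V) : Prop :=
  ∃ δ : ℕ, ∀ (x y z : V) (p : G.Walk x y) (q : G.Walk y z) (s : G.Walk x z),
    p.length = G.dist x y → q.length = G.dist y z → s.length = G.dist x z →
      ∀ a ∈ s.support, ∃ b, (b ∈ p.support ∨ b ∈ q.support) ∧ G.dist a b ≤ δ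

/-- ball sizes are bounded by a linear function of the radius. -/
def LinearGrowth (G : SimpleGraph V) : Prop :=
  ∃ A B : ℕ, ∀ (v : V) (r : ℕ), {u | G.dist u v ≤ r}.ncard ≤ A * r + B

theorem result (V : Type) [Infinite V] (G : SimpleGraph V) (hc : G.Connected)
    (hl : ∀ v, (G.neighborSet v).Finite) (ht : ∀ u v, ∃ φ : G ≃g G, φ u = v)
    (hh : Hyperbolic G) (hg : ¬ LinearGrowth G) : survival G = ⊤ := by
  obtain ⟨δ, hδ⟩ := hh
  obtain ⟨o⟩ : Nonempty V := inferInstance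
  have key : ∀ n : ℕ, ∃ D : ℕ, ∀ T : Finset V, n ≤ T.card →
      (∀ a ∈ T, ∀ b ∈ T, a ≠ b → D < G.dist a b) → n ≤ infCount G T := by
    intro n
    by_contra h
    push Not at h
    refine hg ⟨n * {u | G.dist u o ≤ 2 * δ}.ncard,
      n * ((2 * δ + 1) * {u | G.dist u o ≤ 2 * δ}.ncard), fun v r => ?_⟩
    obtain ⟨T, hn, hsep, hI⟩ := h (2 * (r + δ) + 2 * δ)
    rw [H16.Surv.ball_ncard hc ht v o]
    refine (H16.Surv.main hc hl ht δ hδ n r T hn hsep hI o).trans (le_of_eq ?_)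
    ring
  refine ENat.eq_top_iff_forall_ge.2 (fun n => ?_)
  refine le_trans (b := ((n + 1 : ℕ) : ℕ∞)) (by exact_mod_cast Nat.le_succ n) ?_
  exact le_sSup ⟨n + 1, rfl, by omega, key (n + 1)⟩

end Pool.Agent.Results.MP_5fb5c8_co.Hyp
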